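import Pool.Agent.MP_66cee2_co.TR.Spec
import Pool.Agent.MP_66cee2_co.D.TAlg
import Pool.Agent.MP_66cee2_co.D.TCnt

/-
Row Alg: one step of the count, and the end of the count.
-/

namespace Pool.Agent.MP_66cee2_co.TR

open Pool.Agent.MP_66cee2_co.X Pool.Agent.MP_66cee2_co.D

open TAlgx in
theorem alg_step : ∀ (n k : ℕ) (W : Submodule ℝ (Ix n → ℝ)) (q q' : Ix n → ℝ), Su k W → q ∈ W →
    q' ∈ W → 0 < lz q q → 0 < lz q' q' → ¬ Eqv W q' q → Su (k + 2) (nxt W q q') := by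
  intro n k W q q' hS hq hq' h0 h0' hE
  obtain ⟨N, u, u1, u2, u3, hN⟩ := hS
  have hF : Fr N W := ⟨u, u1, u2, u3⟩
  obtain ⟨mu, hmu⟩ : ∃ mu : ℝ, mu * lz q q = lz q q' :=
    ⟨lz q q' / lz q q, div_mul_cancel₀ _ h0.ne'⟩
  have hx : q' - mu • q ∈ W := W.sub_mem hq' (W.smul_mem mu hq)
  have hxq : lz (q' - mu • q) q = 0 := by rw [l_sub, hmu, lz_comm, sub_self]
  have hn : ∀ w ∈ nxt W q q', lz w (q' - mu • q) = 0 := fun w hw => by
    rw [r_sub, hw.2.1, hw.2.2, mul_zero, sub_zero]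
  have hr : ¬ ∀ w ∈ W, lz w (q' - mu • q) = 0 := by
    intro h
    have h1 : ∀ w ∈ W, lz w q' = mu * lz w q := fun w hw => by
      have := h w hw
      rwa [r_sub, sub_eq_zero] at this
    refine hE ⟨mu, fun e => ?_, h1⟩
    rw [h1 q' hq', e, zero_mul] at h0'
    exact lt_irrefl _ h0'
  have hF1 : Fr (N + 1) (nxt W q q) := app hF hq h0 fun w hw => ⟨hw.1, hw.2.1⟩
  rcases lt_or_ge 0 (lz (q' - mu • q) (q' - mu • q)) with hp | hp
  · obtain ⟨v, v1, v2, v3⟩ : Fr (N + 1 + 1) (nxt W q q') :=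
      app hF1 (p := q' - mu • q) ⟨hx, hxq, hxq⟩ hp fun w hw => ⟨⟨hw.1, hw.2.1, hw.2.1⟩, hn w hw⟩
    refine ⟨_, v, v1, v2, v3, ?_⟩
    rcases hN with hN | ⟨hN, hW⟩
    · exact Or.inl (by omega)
    · exact Or.inr ⟨by omega, fun w hw => hW w hw.1⟩
  · rcases hN with hN | ⟨-, hW⟩
    · obtain ⟨v, v1, v2, v3⟩ : Fr (N + 1) (nxt W q q') :=
        app hF hq h0 fun w hw => ⟨hw.1, hw.2.1⟩
      refine ⟨_, v, v1, v2, v3, Or.inr ⟨by omega, fun w hw => perp_nonneg (fun e => hr ?_) hp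
        (hn w hw)⟩⟩
      intro w _
      rw [e, lz_comm]
      exact zero_dotProduct _
    · exact absurd (rad hW hx hp) hr

theorem alg_end : ∀ (n k : ℕ) (W : Submodule ℝ (Ix n → ℝ)) (w : Ix n → ℝ), Su k W → w ∈ W →
    0 < lz w w → k ≤ n + 1 := by
  intro n k W w hS hw hpos
  obtain ⟨N, u, hp, ho, hW, hN⟩ := hS
  have h := TCntx.card_le (ι := Option (Fin N)) (fun i => i.elim w u) ?_ ?_
  · simp only [Fintype.card_option, Fintype.card_fin] at h
    omega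
  · rintro (_ | i)
    · exact hpos
    · exact hp i
  · rintro (_ | i) (_ | j) hij
    · exact absurd rfl hij
    · exact hW w hw j
    · exact (lz_comm _ _).trans (hW w hw i)
    · exact ho i j fun e => hij (congrArg some e)

theorem sAlg : SAlg := ⟨alg_step, alg_end⟩

end Pool.Agent.MP_66cee2_co.TR
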