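import Pool.Agent.MP_66cee2_co.TR.Spec
import Pool.Agent.MP_66cee2_co.D.TAlg

/-
Row Ini: the start of the count of orthogonal positive vectors.
-/

namespace Pool.Agent.MP_66cee2_co.TR

open Set Metric Module Pool.Agent.MP_66cee2_co.X Pool.Agent.MP_66cee2_co.D

namespace Inix

variable {n : ℕ}

theorem rank_inf (U : Submodule ℝ (Ix n → ℝ)) (φ : (Ix n → ℝ) →ₗ[ℝ] ℝ) :
    finrank ℝ U ≤ finrank ℝ (U ⊓ LinearMap.ker φ : Submodule ℝ (Ix n → ℝ)) + 1 := by
  have h1 := Submodule.finrank_sup_add_finrank_inf_eq U (LinearMap.ker φ)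
  have h2 := Submodule.finrank_le (U ⊔ LinearMap.ker φ)
  have h3 := LinearMap.finrank_range_add_finrank_ker φ
  have h4 := Submodule.finrank_le (LinearMap.range φ)
  rw [finrank_self] at h4
  omega

/-- the pairing with a vector. -/
def fl (p : Ix n → ℝ) : (Ix n → ℝ) →ₗ[ℝ] ℝ where
  toFun v := lz v p
  map_add' a b := add_dotProduct a b _
  map_smul' c a := smul_dotProduct c a _

theorem ob (m : ℕ) : ∀ U : Submodule ℝ (Ix n → ℝ), m ≤ finrank ℝ U →
    (∀ v ∈ U, v ≠ 0 → 0 < lz v v) → TAlgx.Fr m (perp U) := by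
  induction m with
  | zero => exact fun U _ _ => ⟨Fin.elim0, fun i => i.elim0, fun i => i.elim0, fun _ _ i => i.elim0⟩
  | succ m ih =>
    intro U hm hU
    obtain ⟨p, hp, hp0⟩ : ∃ p ∈ U, p ≠ 0 := by
      refine Submodule.exists_mem_ne_zero_of_ne_bot fun h => ?_
      rw [h, finrank_bot] at hm
      omega
    have h1 := rank_inf U (fl p)
    refine TAlgx.app (ih (U ⊓ LinearMap.ker (fl p)) (by omega) fun v hv => hU v hv.1) (p := p)
      (fun v hv => (lz_comm _ _).trans hv.2) (hU p hp hp0) fun w hw => ?_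
    exact ⟨fun v hv => hw v hv.1, hw p hp⟩

/-- the difference of the last two coordinates. -/
def df : (Ix n → ℝ) →ₗ[ℝ] ℝ where
  toFun v := v (Sum.inr true) - v (Sum.inr false)
  map_add' a b := by simp only [Pi.add_apply]; ring
  map_smul' c a := by simp only [Pi.smul_apply, smul_eq_mul, RingHom.id_apply]; ring

theorem pos_df {v : Ix n → ℝ} (h : df v = 0) (h0 : v ≠ 0) : 0 < lz v v := by
  have e : v (Sum.inr true) = v (Sum.inr false) := sub_eq_zero.1 h
  have h1 : 0 ≤ ∑ i, v (Sum.inl i) * v (Sum.inl i) :=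
    Finset.sum_nonneg fun i _ => mul_self_nonneg _
  have h2 := mul_self_nonneg (v (Sum.inr false))
  by_contra k
  rw [lz_eq, e] at k
  have h3 : ∑ i, v (Sum.inl i) * v (Sum.inl i) = 0 := by linarith
  have h4 : v (Sum.inr false) = 0 := mul_self_eq_zero.1 (by linarith)
  apply h0
  funext a
  rcases a with i | b
  · exact mul_self_eq_zero.1 ((Finset.sum_eq_zero_iff_of_nonneg fun i _ =>
      mul_self_nonneg _).1 h3 i (Finset.mem_univ i))
  · cases b
    · exact h4
    · exact e.trans h4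

end Inix

open Inix in
theorem sIni : SIni := by
  intro n k L hk
  by_cases h : ∀ v ∈ L, v ≠ 0 → 0 < lz v v
  · obtain ⟨u, u1, u2, u3⟩ := ob k L hk h
    exact ⟨k, u, u1, u2, u3, Or.inl le_rfl⟩
  · push Not at h
    obtain ⟨x, hx, hx0, hx1⟩ := h
    have h1 := rank_inf L df
    obtain ⟨u, u1, u2, u3⟩ := ob _ (L ⊓ LinearMap.ker df) le_rfl fun v hv => pos_df hv.2
    exact ⟨_, u, u1, u2, fun w hw => u3 w fun v hv => hw v hv.1,
      Or.inr ⟨by omega, fun w hw => TAlgx.perp_nonneg hx0 hx1 (hw x hx)⟩⟩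

end Pool.Agent.MP_66cee2_co.TR
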