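import Pool.Agent.MP_66cee2_co.TR.Spec
import Pool.Agent.MP_98f34a_gt.H36.Brouwer

/-
Row PM: a common zero in the cube of functions with opposite signs on opposite faces.
-/

namespace Pool.Agent.MP_66cee2_co.TR

open Set Metric Module Pool.Agent.MP_66cee2_co.X Pool.Agent.MP_66cee2_co.D
open scoped RealInnerProductSpace

theorem pm_coord (a c : ℝ) (h : max 0 (min 2 (a + c)) = a) (h0 : a = 0 → 0 ≤ c)
    (h2 : a = 2 → c ≤ 0) : a ∈ Icc (0 : ℝ) 2 ∧ c = 0 := by
  have l0 : 0 ≤ a := h ▸ le_max_left _ _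
  have l2 : a ≤ 2 := h ▸ max_le (by norm_num) (min_le_left _ _)
  refine ⟨⟨l0, l2⟩, ?_⟩
  rcases le_total 2 (a + c) with h3 | h3
  · rw [min_eq_left h3, max_eq_right (by norm_num)] at h
    have := h2 h.symm
    linarith
  · rw [min_eq_right h3] at h
    rcases le_total 0 (a + c) with h4 | h4
    · rw [max_eq_right h4] at h
      linarith
    · rw [max_eq_left h4] at h
      have := h0 h.symm
      linarith

theorem sPM : SPM := by
  intro d u hu
  let g : E d → E d := fun x => WithLp.toLp 2 fun i => max 0 (min 2 (x i + u i x))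
  have hg : Continuous g := by
    refine (PiLp.continuous_toLp 2 _).comp (continuous_pi fun i => ?_)
    have h1 : Continuous (u i) := (hu i).1
    have h2 : Continuous fun x : E d => x i := by fun_prop
    exact continuous_const.max (continuous_const.min (h2.add h1))
  have hR : ∀ w, ‖g w‖ ≤ Real.sqrt (∑ _i : Fin d, (4 : ℝ)) := by
    intro w
    rw [EuclideanSpace.norm_eq]
    refine Real.sqrt_le_sqrt (Finset.sum_le_sum fun i _ => ?_)
    have l0 : (0 : ℝ) ≤ max 0 (min 2 (w i + u i w)) := le_max_left _ _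
    have l2 : max 0 (min 2 (w i + u i w)) ≤ (2 : ℝ) := max_le (by norm_num) (min_le_left _ _)
    have e : g w i = max 0 (min 2 (w i + u i w)) := rfl
    rw [e, Real.norm_eq_abs, abs_of_nonneg l0]
    nlinarith
  obtain ⟨x, hx⟩ := Pool.Agent.MP_98f34a_gt.H36.brouwer_euclid g hg _ hR
  have key : ∀ i, x i ∈ Icc (0 : ℝ) 2 ∧ u i x = 0 := fun i => by
    have e : max 0 (min 2 (x i + u i x)) = x i := congrArg (fun z : E d => z i) hx
    exact pm_coord _ _ e ((hu i).2.1 x) ((hu i).2.2 x)
  exact ⟨x, fun i => (key i).1, fun i => (key i).2⟩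

end Pool.Agent.MP_66cee2_co.TR
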