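import Pool.Agent.MP_66cee2_co.TR.Spec
import Pool.Agent.MP_66cee2_co.D.TStart

/-
The arc around the pole of the lune.
-/

namespace Pool.Agent.MP_66cee2_co.TR

open Set Metric Module Pool.Agent.MP_66cee2_co.X Pool.Agent.MP_66cee2_co.D
open scoped RealInnerProductSpace

namespace Startx

variable {d : ℕ}

theorem nsq {e f : E d} (he : ‖e‖ = 1) (hf : ‖f‖ = 1) (hef : ⟪f, e⟫ = 0) (x y : ℝ) :
    ‖x • f + y • e‖ ^ 2 = x ^ 2 + y ^ 2 := by
  rw [norm_add_sq_real, norm_smul, norm_smul, inner_smul_left, inner_smul_right, he, hf, hef]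
  simp

theorem lune_of {o e y : E d} {h : ℝ} (he : ‖e‖ = 1)
    (h1 : ‖y - o‖ ^ 2 - 2 * (h * ⟪y - o, e⟫) + h ^ 2 < 1)
    (h2 : 1 < ‖y - o‖ ^ 2 + 2 * (h * ⟪y - o, e⟫) + h ^ 2) : y ∈ Lune (o - h • e) (o + h • e) := by
  have n1 : ‖h • e‖ ^ 2 = h ^ 2 := by
    rw [norm_smul, he, mul_one, Real.norm_eq_abs, sq_abs]
  have e1 : y - (o + h • e) = y - o - h • e := by abel
  have e2 : y - (o - h • e) = y - o + h • e := by abel
  have a1 := norm_sub_sq_real (y - o) (h • e)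
  have a2 := norm_add_sq_real (y - o) (h • e)
  rw [inner_smul_right, n1] at a1 a2
  constructor
  · rw [e1]
    nlinarith [norm_nonneg (y - o - h • e)]
  · rw [e2]
    by_contra hc
    nlinarith [norm_nonneg (y - o + h • e), not_lt.1 hc]

theorem eq_one {z : E d} (h : ‖z‖ ^ 2 = 1) : ‖z‖ = 1 := by
  nlinarith [norm_nonneg z]

theorem core (hd : 3 ≤ d) (o e : E d) (h : ℝ) (he : ‖e‖ = 1) (h0 : 0 < h) (h1 : h ≤ 1 / 20) :
    Arcs (Lune (o - h • e) (o + h • e)) (d - 1) := by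
  obtain ⟨f, -, hf, -, -, hef, -⟩ := TStartx.frame hd he
  have ee : ⟪e, e⟫ = 1 := by rw [real_inner_self_eq_norm_sq, he, one_pow]
  let γ : ℝ → E d := fun t => o + (t • f + (√(1 - t ^ 2) + 3 * h / 4) • e)
  have γc : Continuous γ := by fun_prop
  have γo : ∀ t, γ t - o = t • f + (√(1 - t ^ 2) + 3 * h / 4) • e := fun t => by simp [γ]
  have hc : ∀ t ∈ Icc (-1 / 2 : ℝ) (1 / 2), √(1 - t ^ 2) ^ 2 = 1 - t ^ 2 ∧ 1 / 2 ≤ √(1 - t ^ 2) ∧
      √(1 - t ^ 2) ≤ 1 := fun t ht => by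
    have a0 : 3 / 4 ≤ 1 - t ^ 2 := by nlinarith [ht.1, ht.2]
    refine ⟨Real.sq_sqrt (by linarith), Real.le_sqrt_of_sq_le (by linarith), ?_⟩
    exact Real.sqrt_le_one.2 (by nlinarith)
  have c1 : Continuous fun y : E d => ‖y - o‖ := by fun_prop
  have c2 : Continuous fun y : E d => ⟪y - o, e⟫ := by fun_prop
  refine ⟨γ '' Icc (-1 / 2) (1 / 2) ∪ {y | ‖y - o‖ = 1 ∧ 5 * h / 8 ≤ ⟪y - o, e⟫},
    γ '' Icc (-1 / 2) (1 / 2), ?_, ?_, subset_union_left,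
    isPreconnected_Icc.image _ γc.continuousOn, ?_, ?_⟩
  · refine (isCompact_Icc.image γc).union ?_
    exact (isCompact_sphere o 1).of_isClosed_subset
      ((isClosed_eq c1 continuous_const).inter (isClosed_le continuous_const c2))
      fun y hy => mem_sphere_iff_norm.2 hy.1
  · rintro y (⟨t, ht, rfl⟩ | ⟨y1, y2⟩)
    · obtain ⟨a1, a2, -⟩ := hc t ht
      have n1 := nsq he hf hef t (√(1 - t ^ 2) + 3 * h / 4)
      have n2 : ⟪γ t - o, e⟫ = √(1 - t ^ 2) + 3 * h / 4 := by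
        rw [γo, inner_add_left, real_inner_smul_left, real_inner_smul_left, hef, ee]
        ring
      rw [← γo] at n1
      refine lune_of he ?_ ?_ <;> rw [n1, n2] <;> nlinarith
    · refine lune_of he ?_ ?_ <;> rw [y1] <;> nlinarith
  · refine ⟨_, ⟨1 / 2, by norm_num, rfl⟩, _, ⟨-1 / 2, by norm_num, rfl⟩, ?_⟩
    have : γ (1 / 2) - γ (-1 / 2) = f := by
      have e1 : ((-1 / 2 : ℝ)) ^ 2 = (1 / 2) ^ 2 := by norm_num
      simp only [γ, e1]
      module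
    rw [this, hf]
  · rintro _ ⟨t, ht, rfl⟩
    obtain ⟨a1, a2, a3⟩ := hc t ht
    have n1 := nsq he hf hef t (√(1 - t ^ 2) + 3 * h / 4)
    have hw := γo t
    rw [← hw] at n1
    generalize √(1 - t ^ 2) = c at a1 a2 a3 n1 hw
    generalize γ t = ζ at n1 hw
    obtain ⟨w, rfl⟩ : ∃ w, ζ = o + w := ⟨ζ - o, by abel⟩
    rw [add_sub_cancel_left] at n1 hw
    have n2 : ‖w‖ ^ 2 = 1 + 3 * h / 2 * c + 9 * h ^ 2 / 16 := by
      rw [n1]
      linarith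
    have n3 : 1 ≤ ‖w‖ ^ 2 := by nlinarith
    have n4 : ‖w‖ ^ 2 ≤ 11 / 10 := by nlinarith
    have w0 : w ≠ 0 := by
      rintro rfl
      norm_num at n3
    have f1 := Submodule.finrank_add_finrank_orthogonal (ℝ ∙ w)
    rw [finrank_span_singleton w0, finrank_euclideanSpace_fin] at f1
    have r2 : √(1 - ‖w‖ ^ 2 / 4) ^ 2 = 1 - ‖w‖ ^ 2 / 4 := Real.sq_sqrt (by linarith)
    refine ⟨o + (1 / 2 : ℝ) • w, (ℝ ∙ w)ᗮ, √(1 - ‖w‖ ^ 2 / 4), by omega,
      Real.sqrt_pos.2 (by linarith), by linarith, by linarith, fun y hy => ?_⟩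
    obtain ⟨v, rfl⟩ : ∃ v, y = o + (1 / 2 : ℝ) • w + v := ⟨y - (o + (1 / 2 : ℝ) • w), by abel⟩
    obtain ⟨v1, v2⟩ := hy
    rw [add_sub_cancel_left] at v1 v2
    have v3 : ⟪v, w⟫ = 0 := Submodule.mem_orthogonal_singleton_iff_inner_left.1 v1
    have v4 : ‖v‖ ^ 2 = 1 - ‖w‖ ^ 2 / 4 := by rw [v2, r2]
    have n5 : ‖(1 / 2 : ℝ) • w‖ ^ 2 = ‖w‖ ^ 2 / 4 := by
      rw [norm_smul, mul_pow]
      norm_num
      ring
    have e1 : o + (1 / 2 : ℝ) • w + v - o = v + (1 / 2 : ℝ) • w := by abel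
    have e2 : o + (1 / 2 : ℝ) • w + v - (o + w) = v - (1 / 2 : ℝ) • w := by module
    have u1 : ‖v + (1 / 2 : ℝ) • w‖ = 1 := eq_one (by
      rw [norm_add_sq_real, inner_smul_right, v3, v4, n5]
      ring)
    have u2 : ‖v - (1 / 2 : ℝ) • w‖ = 1 := eq_one (by
      rw [norm_sub_sq_real, inner_smul_right, v3, v4, n5]
      ring)
    refine ⟨Or.inr ⟨by rw [e1, u1], ?_⟩, by rw [e2, u2]⟩
    rw [e1]
    have u3 : ⟪v + (1 / 2 : ℝ) • w, w⟫ = ‖w‖ ^ 2 / 2 := by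
      rw [inner_add_left, v3, real_inner_smul_left, real_inner_self_eq_norm_sq]
      ring
    generalize v + (1 / 2 : ℝ) • w = u at u1 u3
    have u4 : ⟪u, w⟫ = t * ⟪u, f⟫ + (c + 3 * h / 4) * ⟪u, e⟫ := by
      rw [hw, inner_add_right, inner_smul_right, inner_smul_right]
    have u5 := abs_real_inner_le_norm u f
    rw [u1, hf, mul_one, abs_le] at u5
    have u6 : t * ⟪u, f⟫ ≤ 1 / 2 := by nlinarith [ht.1, ht.2, u5.1, u5.2]
    by_contra hc'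
    have u7 : (c + 3 * h / 4) * ⟪u, e⟫ ≤ (c + 3 * h / 4) * (5 * h / 8) :=
      mul_le_mul_of_nonneg_left (not_le.1 hc').le (by linarith)
    nlinarith

end Startx

theorem sStart (_h : STSlice) : SStart := by
  intro d a b hd hab hle
  have n0 : 0 < ‖b - a‖ := norm_pos_iff.2 (sub_ne_zero.2 hab.symm)
  have he : ‖‖b - a‖⁻¹ • (b - a)‖ = 1 := by
    rw [norm_smul, norm_inv, norm_norm, inv_mul_cancel₀ n0.ne']
  have h := Startx.core hd (a + (1 / 2 : ℝ) • (b - a)) _ (‖b - a‖ / 2) he (by linarith)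
    (by rw [norm_sub_rev]; linarith)
  have e0 : (‖b - a‖ / 2) • ‖b - a‖⁻¹ • (b - a) = (1 / 2 : ℝ) • (b - a) := by
    rw [smul_smul]
    congr 1
    field_simp
  have e1 : a + (1 / 2 : ℝ) • (b - a) + (1 / 2 : ℝ) • (b - a) = b := by module
  rwa [e0, add_sub_cancel_right, e1] at h

end Pool.Agent.MP_66cee2_co.TR
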