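import Pool.Agent.MP_66cee2_co.TR.Spec

/-
Row Tri: a connected set along which the labels span at least `d` dimensions.
-/

namespace Pool.Agent.MP_66cee2_co.TR

open Set Metric Module Filter Topology Pool.Agent.MP_66cee2_co.X Pool.Agent.MP_66cee2_co.D

namespace Trix

variable {d n : ℕ}

/-- the span of the labels of points of `U`. -/
def LU (O : (Ix n → ℝ) → Set (E d)) (U : Set (E d)) : Submodule ℝ (Ix n → ℝ) :=
  Submodule.span ℝ {v | (O v ∩ U).Nonempty}

/-- the span of the labels near a point. -/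
def La (O : (Ix n → ℝ) → Set (E d)) (x : E d) : Submodule ℝ (Ix n → ℝ) :=
  ⨅ r : {r : ℝ // 0 < r}, LU O (ball x r)

variable {O : (Ix n → ℝ) → Set (E d)}

theorem lu_mono {U U' : Set (E d)} (h : U ⊆ U') : LU O U ≤ LU O U' :=
  Submodule.span_mono fun _ hv => hv.mono (inter_subset_inter_right _ h)

theorem la_le (x : E d) {r : ℝ} (hr : 0 < r) : La O x ≤ LU O (ball x r) :=
  iInf_le (fun r : {r : ℝ // 0 < r} => LU O (ball x r)) ⟨r, hr⟩

theorem stab (O : (Ix n → ℝ) → Set (E d)) (x : E d) :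
    ∃ r : ℝ, 0 < r ∧ LU O (ball x r) ≤ La O x := by
  classical
  have hex : ∃ k : ℕ, ∃ r : ℝ, 0 < r ∧ finrank ℝ (LU O (ball x r)) = k := ⟨_, 1, one_pos, rfl⟩
  obtain ⟨r, hr, hk⟩ := Nat.find_spec hex
  refine ⟨r, hr, le_iInf fun s => ?_⟩
  have h1 : LU O (ball x (min r s)) ≤ LU O (ball x r) :=
    lu_mono (ball_subset_ball (min_le_left _ _))
  have h2 : LU O (ball x (min r s)) = LU O (ball x r) :=
    Submodule.eq_of_le_of_finrank_le h1
      (hk ▸ Nat.find_min' hex ⟨min r s, lt_min hr s.2, rfl⟩)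
  rw [← h2]
  exact lu_mono (ball_subset_ball (min_le_right _ _))

theorem usc (O : (Ix n → ℝ) → Set (E d)) (x : E d) :
    ∃ r : ℝ, 0 < r ∧ ∀ y ∈ ball x r, La O y ≤ La O x := by
  obtain ⟨r, hr, h⟩ := stab O x
  refine ⟨r, hr, fun y hy => ?_⟩
  obtain ⟨s, hs, hsub⟩ := Metric.isOpen_iff.1 isOpen_ball y hy
  exact (la_le y hs).trans ((lu_mono hsub).trans h)

theorem closed_ge (O : (Ix n → ℝ) → Set (E d)) (j : ℕ) :
    IsClosed {x | j ≤ finrank ℝ (La O x)} := by
  rw [← isOpen_compl_iff, Metric.isOpen_iff]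
  intro x hx
  obtain ⟨r, hr, h⟩ := usc O x
  exact ⟨r, hr, fun y hy hj => hx (le_trans hj (Submodule.finrank_mono (h y hy)))⟩

theorem near (hO : Fam O) (x : E d) {ε : ℝ} (hε : 0 < ε) :
    ∃ v, ∃ y ∈ O v, ‖y - x‖ < ε ∧ v ∈ La O x ∧ 0 < lz v v := by
  obtain ⟨r, hr, h⟩ := stab O x
  obtain ⟨y, hy, hyO⟩ := hO.dense.inter_open_nonempty (ball x (min r ε)) isOpen_ball
    ⟨x, mem_ball_self (lt_min hr hε)⟩
  obtain ⟨v, hv⟩ := mem_iUnion.1 hyO
  refine ⟨v, y, hv, ?_, h (Submodule.subset_span ⟨y, hv, ?_⟩), hO.pos v ⟨y, hv⟩⟩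
  · exact mem_ball_iff_norm.1 (ball_subset_ball (min_le_right _ _) hy)
  · exact ball_subset_ball (min_le_left _ _) hy

theorem f1 (hO : Fam O) {v : Ix n → ℝ} {x y : E d} (hy : y ∈ O v) (h : ‖y - x‖ = 1) :
    v ∈ perp (La O x) := by
  obtain ⟨ε, hε, hsub⟩ := Metric.isOpen_iff.1 (hO.opn v) y hy
  have h1 : LU O (ball x ε) ≤ nxt ⊤ v v := by
    refine Submodule.span_le.2 fun w hw => ?_
    obtain ⟨z, hz, hzx⟩ := hw
    have h2 : y + (z - x) ∈ O v := hsub (by
      rw [mem_ball_iff_norm, add_sub_cancel_left]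
      exact mem_ball_iff_norm.1 hzx)
    have h3 : ‖z - (y + (z - x))‖ = 1 := by
      rw [← h, ← norm_neg]
      exact congrArg norm (by abel)
    have h4 := hO.orth w v z _ hz h2 h3
    exact ⟨Submodule.mem_top, h4, h4⟩
  intro w hw
  exact (lz_comm _ _).trans (h1 (la_le x hε hw)).2.1

theorem f2 (hO : Fam O) {K : Set (E d)} (hK : IsPreconnected K) {L : Submodule ℝ (Ix n → ℝ)}
    (hL : ∀ x ∈ K, L ≤ La O x) {a b : E d} (ha : a ∈ K) (hb : b ∈ K) :
    Lab O (Lune a b) (perp L) := by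
  intro v y hy hyL
  have hc : ContinuousOn (fun x : E d => ‖y - x‖) K := by fun_prop
  obtain ⟨x, hx, hx1⟩ := hK.intermediate_value hb ha hc ⟨hyL.1.le, hyL.2.le⟩
  exact fun w hw => f1 hO hy hx1 w (hL x hx hw)

theorem f3 (hO : Fam O) {K : Set (E d)} (hK : IsPreconnected K) {j : ℕ}
    (hj : ∀ x ∈ K, finrank ℝ (La O x) = j) {a b : E d} (ha : a ∈ K) (hb : b ∈ K) :
    ‖a - b‖ ≤ 1 := by
  have hc : ∀ x ∈ K, La O b = La O x := fun x hx => by
    refine hK.induction₂ (fun x y => La O x = La O y) (fun z hz => ?_)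
      (fun _ _ _ _ _ _ h1 h2 => h1.trans h2) (fun _ _ _ _ h => h.symm) hb hx
    obtain ⟨r, hr, h⟩ := usc O z
    filter_upwards [mem_nhdsWithin_of_mem_nhds (ball_mem_nhds z hr), self_mem_nhdsWithin]
      with y h1 h2
    exact (Submodule.eq_of_le_of_finrank_le (h y h1) (by rw [hj z hz, hj y h2])).symm
  by_contra hab
  have hab' : 1 < ‖a - b‖ := not_le.1 hab
  obtain ⟨v, y, hy, h1, h2, h3⟩ := near hO b (lt_min one_pos (sub_pos.2 hab'))
  have h4 : y ∈ Lune a b := by
    refine ⟨h1.trans_le (min_le_left _ _), ?_⟩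
    have h5 := h1.trans_le (min_le_right _ _)
    have h6 := norm_sub_le (y - b) (y - a)
    rw [show y - b - (y - a) = a - b by abel] at h6
    linarith
  exact h3.ne' (f2 hO hK (fun x hx => (hc x hx).le) ha hb v y hy h4 v h2)

theorem cube_compact (d : ℕ) : IsCompact (Cube d) := by
  have h : Cube d = (PiLp.homeomorph 2 fun _ : Fin d => ℝ) ⁻¹'
      (Set.pi univ fun _ => Icc (0 : ℝ) 2) := by
    ext x
    exact ⟨fun h i _ => h i, fun h i => h i (mem_univ i)⟩
  rw [h]
  exact (Homeomorph.isCompact_preimage _).2 (isCompact_univ_pi fun _ => isCompact_Icc)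

end Trix

open Trix in
theorem sTri (hP : SPM) (hC : SCut) (hB : SBump) : STri := by
  classical
  intro d n O hd hO
  by_contra hno
  have top : ∀ K ⊆ Cube d ∩ {x | d ≤ finrank ℝ (La O x)}, IsPreconnected K → ∀ a ∈ K, ∀ b ∈ K,
      a = b := by
    intro K hKs hK a ha b hb
    by_contra hab
    have hcl : closure K ⊆ Cube d ∩ {x | d ≤ finrank ℝ (La O x)} :=
      closure_minimal hKs ((cube_compact d).isClosed.inter (closed_ge O d))
    have hco : IsCompact (closure K) :=
      (cube_compact d).of_isClosed_subset isClosed_closure fun x hx => (hcl hx).1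
    have hex : ∃ k : ℕ, ∃ x ∈ closure K, finrank ℝ (La O x) = k := ⟨_, a, subset_closure ha, rfl⟩
    obtain ⟨x, hx, hk⟩ := Nat.find_spec hex
    obtain ⟨r, hr, h⟩ := usc O x
    obtain ⟨y, hy, hxy⟩ : ∃ y ∈ closure K, x ≠ y := by
      by_cases e : x = a
      · exact ⟨b, subset_closure hb, e ▸ hab⟩
      · exact ⟨a, subset_closure ha, e⟩
    obtain ⟨K', k1, k2, p, hp, q, hq, hpq⟩ := hB d (closure K) x y (min r (1 / 20)) hco hK.closure
      hx hy hxy (lt_min hr (by norm_num))
    refine hno ⟨p, q, La O x, hpq, ?_, (hcl hx).2, f2 hO k2 (fun z hz => ?_) hp hq⟩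
    · have h1 := mem_ball_iff_norm.1 (ball_subset_ball (min_le_right _ _) (k1 hp).2)
      have h2 := mem_ball_iff_norm.1 (ball_subset_ball (min_le_right _ _) (k1 hq).2)
      have h3 := norm_sub_le (p - x) (q - x)
      rw [show p - x - (q - x) = p - q by abel] at h3
      linarith
    · exact (Submodule.eq_of_le_of_finrank_le
        (h z (ball_subset_ball (min_le_left _ _) (k1 hz).2))
        (hk ▸ Nat.find_min' hex ⟨z, (k1 hz).1, rfl⟩)).ge
  have main : ∀ k : ℕ, k ≤ d → ∃ u : Fin d → E d → ℝ, (∀ i, Sgn i (u i)) ∧ ∀ x ∈ Cube d,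
      (∀ i : Fin d, i.val < k → u i x = 0) → k = 0 ∨ finrank ℝ (La O x) + k ≤ d := by
    intro k
    induction k with
    | zero =>
      intro _
      exact ⟨fun _ _ => 0, fun i => ⟨continuous_const, fun _ _ => le_rfl, fun _ _ => le_rfl⟩,
        fun _ _ _ => Or.inl rfl⟩
    | succ k ih =>
      intro hk
      obtain ⟨u, u1, u2⟩ := ih (by omega)
      have hcl : IsClosed {x : E d | ∀ i : Fin d, i.val < k → u i x = 0} := by
        simp only [ofPred_forall]
        exact isClosed_iInter fun i => isClosed_iInter fun _ =>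
          isClosed_eq (u1 i).1 continuous_const
      obtain ⟨w, w1, w2⟩ := hC d ⟨k, hk⟩
        (Cube d ∩ ({x | ∀ i : Fin d, i.val < k → u i x = 0} ∩ {x | d - k ≤ finrank ℝ (La O x)}))
        ((cube_compact d).inter_right (hcl.inter (closed_ge O _))) (by
          intro K hKs hK a ha b hb a0 b2
          rcases Nat.eq_zero_or_pos k with h0 | h0
          · subst h0
            have := top K (fun x hx => ⟨(hKs hx).1, (hKs hx).2.2⟩) hK a ha b hb
            rw [this, b2] at a0
            norm_num at a0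
          · have h1 := f3 hO hK (j := d - k) (fun x hx => by
              have h2 := u2 x (hKs hx).1 (hKs hx).2.1
              have h3 : d - k ≤ finrank ℝ (La O x) := (hKs hx).2.2
              omega) ha hb
            have h2 := PiLp.norm_apply_le (a - b) ⟨k, hk⟩
            rw [PiLp.sub_apply, a0, b2] at h2
            norm_num at h2
            linarith)
      refine ⟨Function.update u ⟨k, hk⟩ w, fun i => ?_, fun x hx hu => Or.inr ?_⟩
      · by_cases e : i = ⟨k, hk⟩
        · rw [e, Function.update_self]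
          exact w1
        · rw [Function.update_of_ne e]
          exact u1 i
      · by_contra hlt
        refine w2 x ⟨hx, fun i hi => ?_, ?_⟩ ?_
        · have := hu i (by omega)
          rwa [Function.update_of_ne (fun e => by simp [e] at hi)] at this
        · show d - k ≤ finrank ℝ (La O x)
          omega
        · have := hu ⟨k, hk⟩ (Nat.lt_succ_self k)
          rwa [Function.update_self] at this
  obtain ⟨u, u1, u2⟩ := main d le_rfl
  obtain ⟨x, hx, hu⟩ := hP d u u1
  obtain ⟨v, -, -, -, h2, h3⟩ := near hO x one_pos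
  have h4 : finrank ℝ (La O x) = 0 := by
    have := u2 x hx fun i _ => hu i
    omega
  rw [Submodule.finrank_eq_zero] at h4
  rw [h4, Submodule.mem_bot] at h2
  rw [h2] at h3
  exact h3.ne' (zero_dotProduct _)

end Pool.Agent.MP_66cee2_co.TR
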