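import Pool.Agent.MP_66cee2_co.D.TT
import Pool.Agent.MP_66cee2_co.H31.TRc
import Pool.Agent.MP_66cee2_co.TR.PM
import Pool.Agent.MP_66cee2_co.TR.Tri
import Pool.Agent.MP_66cee2_co.TR.Alg
import Pool.Agent.MP_66cee2_co.TR.Ini
import Pool.Agent.MP_66cee2_co.TR.Start

/-
The topological theorem in the larger range.
-/

namespace Pool.Agent.MP_66cee2_co.TR

open Pool.Agent.MP_66cee2_co.D

theorem sTT3 : STT3 :=
  sTT3_of (sTri sPM H31.sCut H31.sBump) sAlg sIni (sTArc sTSlice) (sTStart sTSlice) sTCap sTStep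
    (sStart sTSlice)

end Pool.Agent.MP_66cee2_co.TR
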