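import Pool.Agent.MP_66cee2_co.TR.Spec

/-
Row Cut: a compact set that does not join two opposite faces is missed by a zero set.
-/

namespace Pool.Agent.MP_66cee2_co.TR

open Set Metric Module Pool.Agent.MP_66cee2_co.X Pool.Agent.MP_66cee2_co.D
open scoped RealInnerProductSpace

theorem cut_face_closed {d : ℕ} (i : Fin d) (c : ℝ) : IsClosed {x : E d | x i = c} := by
  have h : Continuous fun x : E d => x i := by fun_prop
  exact isClosed_eq h continuous_const

theorem cut_face_nonempty {d : ℕ} (i : Fin d) (c : ℝ) : {x : E d | x i = c}.Nonempty :=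
  ⟨EuclideanSpace.single i c, by simp⟩

theorem sCut (h : SSep) : SCut := by
  intro d i C hC hK
  obtain ⟨C₀, C₁, h0, h1, hU, hD, hG, hF⟩ :=
    h d C {x | x i = 0} {x | x i = 2} hC (cut_face_closed i 0) (cut_face_closed i 2)
      (fun K hKC hKp ⟨a, ha, ha'⟩ ⟨b, hb, hb'⟩ => hK K hKC hKp a ha b hb ha' hb')
  have cA : IsClosed (C₁ ∪ {x : E d | x i = 2}) := h1.union (cut_face_closed i 2)
  have cB : IsClosed (C₀ ∪ {x : E d | x i = 0}) := h0.union (cut_face_closed i 0)
  have nA : (C₁ ∪ {x : E d | x i = 2}).Nonempty := (cut_face_nonempty i 2).inr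
  have nB : (C₀ ∪ {x : E d | x i = 0}).Nonempty := (cut_face_nonempty i 0).inr
  refine ⟨fun x => infDist x (C₁ ∪ {x : E d | x i = 2}) - infDist x (C₀ ∪ {x : E d | x i = 0}),
    ⟨(continuous_infDist_pt _).sub (continuous_infDist_pt _), ?_, ?_⟩, ?_⟩
  · intro x hx
    have e : infDist x (C₀ ∪ {x : E d | x i = 0}) = 0 := infDist_zero_of_mem (Or.inr hx)
    have := infDist_nonneg (x := x) (s := C₁ ∪ {x : E d | x i = 2})
    simp only [e]
    linarith
  · intro x hx
    have e : infDist x (C₁ ∪ {x : E d | x i = 2}) = 0 := infDist_zero_of_mem (Or.inr hx)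
    have := infDist_nonneg (x := x) (s := C₀ ∪ {x : E d | x i = 0})
    simp only [e]
    linarith
  · intro x hx
    rw [hU] at hx
    rcases hx with hx | hx
    · have e : infDist x (C₀ ∪ {x : E d | x i = 0}) = 0 := infDist_zero_of_mem (Or.inl hx)
      have hn : x ∉ C₁ ∪ {x : E d | x i = 2} := by
        rintro (h' | h')
        · exact Set.disjoint_left.1 hD hx h'
        · exact Set.disjoint_left.1 hG hx h'
      have := (cA.notMem_iff_infDist_pos nA).1 hn
      simp only [e]
      linarith
    · have e : infDist x (C₁ ∪ {x : E d | x i = 2}) = 0 := infDist_zero_of_mem (Or.inl hx)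
      have hn : x ∉ C₀ ∪ {x : E d | x i = 0} := by
        rintro (h' | h')
        · exact Set.disjoint_left.1 hD h' hx
        · exact Set.disjoint_left.1 hF hx h'
      have := (cB.notMem_iff_infDist_pos nB).1 hn
      simp only [e]
      linarith

end Pool.Agent.MP_66cee2_co.TR
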