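import Pool.Agent.MP_66cee2_co.TR.Spec

/-
Row Sep: two closed sets not joined by a connected subset of a compact set are separated in it.
-/

namespace Pool.Agent.MP_66cee2_co.TR

open Set Metric Module Pool.Agent.MP_66cee2_co.X Pool.Agent.MP_66cee2_co.D
open scoped RealInnerProductSpace

theorem sep_point {Y : Type*} [TopologicalSpace Y] [CompactSpace Y] [T2Space Y] (G : Set Y)
    (hG : IsClosed G) (x : Y) (hx : Disjoint G (connectedComponent x)) :
    ∃ U : Set Y, IsClopen U ∧ x ∈ U ∧ Disjoint G U := by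
  rw [connectedComponent_eq_iInter_isClopen] at hx
  obtain ⟨t, ht⟩ := hG.isCompact.elim_finite_subfamily_closed
    (fun s : {s : Set Y // IsClopen s ∧ x ∈ s} => (s : Set Y)) (fun s => s.2.1.isClosed)
    (Set.disjoint_iff_inter_eq_empty.1 hx)
  refine ⟨⋂ s ∈ t, (s : Set Y), isClopen_biInter_finset fun s _ => s.2.1, ?_,
    Set.disjoint_iff_inter_eq_empty.2 ht⟩
  exact mem_iInter₂.2 fun s _ => s.2.2

theorem sep_sets {Y : Type*} [TopologicalSpace Y] [CompactSpace Y] [T2Space Y] (F G : Set Y)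
    (hF : IsClosed F) (hG : IsClosed G) (h : ∀ x ∈ F, Disjoint G (connectedComponent x)) :
    ∃ U : Set Y, IsClopen U ∧ F ⊆ U ∧ Disjoint G U := by
  choose U hU using fun x : F => sep_point G hG x.1 (h x.1 x.2)
  obtain ⟨t, ht⟩ := hF.isCompact.elim_finite_subcover U (fun x => (hU x).1.isOpen)
    (fun x hx => mem_iUnion.2 ⟨⟨x, hx⟩, (hU ⟨x, hx⟩).2.1⟩)
  refine ⟨⋃ s ∈ t, U s, isClopen_biUnion_finset fun s _ => (hU s).1, ht, ?_⟩
  exact disjoint_iUnion₂_right.2 fun s _ => (hU s).2.2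

theorem sSep : SSep := by
  intro d C F G hC hF hG h
  have : CompactSpace C := isCompact_iff_compactSpace.1 hC
  have hv : Continuous (Subtype.val : C → E d) := continuous_subtype_val
  obtain ⟨U, hU, hFU, hGU⟩ := sep_sets (Subtype.val ⁻¹' F : Set C) (Subtype.val ⁻¹' G)
    (hF.preimage hv) (hG.preimage hv) (by
      intro x hx
      refine Set.disjoint_left.2 fun y hy hyx => ?_
      refine h (Subtype.val '' connectedComponent x) ?_
        (isPreconnected_connectedComponent.image _ hv.continuousOn)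
        ⟨x.1, ⟨x, mem_connectedComponent, rfl⟩, hx⟩ ⟨y.1, ⟨y, hyx, rfl⟩, hy⟩
      rintro _ ⟨z, _, rfl⟩
      exact z.2)
  refine ⟨Subtype.val '' U, Subtype.val '' Uᶜ, (hU.isClosed.isCompact.image hv).isClosed,
    (hU.compl.isClosed.isCompact.image hv).isClosed, ?_, ?_, ?_, ?_⟩
  · ext x
    constructor
    · intro hx
      by_cases hxU : (⟨x, hx⟩ : C) ∈ U
      · exact Or.inl ⟨_, hxU, rfl⟩
      · exact Or.inr ⟨_, hxU, rfl⟩
    · rintro (⟨z, _, rfl⟩ | ⟨z, _, rfl⟩) <;> exact z.2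
  · refine Set.disjoint_left.2 ?_
    rintro _ ⟨z, hz, rfl⟩ ⟨w, hw, e⟩
    exact hw ((Subtype.ext e : w = z) ▸ hz)
  · refine Set.disjoint_left.2 ?_
    rintro _ ⟨z, hz, rfl⟩ hzG
    exact Set.disjoint_left.1 hGU hzG hz
  · refine Set.disjoint_left.2 ?_
    rintro _ ⟨z, hz, rfl⟩ hzF
    exact hz (hFU hzF)

end Pool.Agent.MP_66cee2_co.TR
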