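import Pool.Agent.MP_66cee2_co.D.SpecT

/-
The topological theorem with a first step that removes `d` dimensions: rows and assembly.
-/

namespace Pool.Agent.MP_66cee2_co.TR

open Set Metric Module Pool.Agent.MP_66cee2_co.X Pool.Agent.MP_66cee2_co.D
open scoped RealInnerProductSpace

/-- the cube of side two. -/
def Cube (d : ℕ) : Set (E d) := {x | ∀ i, x i ∈ Icc (0 : ℝ) 2}

/-- a continuous function, nonnegative on the face `x i = 0`, nonpositive on the face `x i = 2`. -/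
def Sgn {d : ℕ} (i : Fin d) (u : E d → ℝ) : Prop :=
  Continuous u ∧ (∀ x : E d, x i = 0 → 0 ≤ u x) ∧ ∀ x : E d, x i = 2 → u x ≤ 0

/-- row PM: common zero in the cube. -/
def SPM : Prop :=
  ∀ (d : ℕ) (u : Fin d → E d → ℝ), (∀ i, Sgn i (u i)) → ∃ x ∈ Cube d, ∀ i, u i x = 0

/-- row Sep: separation of two closed sets inside a compact set. -/
def SSep : Prop :=
  ∀ (d : ℕ) (C F G : Set (E d)), IsCompact C → IsClosed F → IsClosed G →
    (∀ K ⊆ C, IsPreconnected K → (K ∩ F).Nonempty → (K ∩ G).Nonempty → False) →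
    ∃ C₀ C₁ : Set (E d), IsClosed C₀ ∧ IsClosed C₁ ∧ C = C₀ ∪ C₁ ∧ Disjoint C₀ C₁ ∧
      Disjoint C₀ G ∧ Disjoint C₁ F

/-- row Cut: a compact set that does not join two faces is missed by a zero set. -/
def SCut : Prop :=
  ∀ (d : ℕ) (i : Fin d) (C : Set (E d)), IsCompact C →
    (∀ K ⊆ C, IsPreconnected K → ∀ a ∈ K, ∀ b ∈ K, a i = 0 → b i = 2 → False) →
    ∃ u : E d → ℝ, Sgn i u ∧ ∀ x ∈ C, u x ≠ 0

/-- row Bump: a continuum has nondegenerate connected pieces in small balls. -/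
def SBump : Prop :=
  ∀ (d : ℕ) (C : Set (E d)) (x y : E d) (r : ℝ), IsCompact C → IsPreconnected C → x ∈ C → y ∈ C →
    x ≠ y → 0 < r → ∃ K ⊆ C ∩ ball x r, IsPreconnected K ∧ ∃ a ∈ K, ∃ b ∈ K, a ≠ b

/-- the region between two unit spheres. -/
def Lune {d : ℕ} (a b : E d) : Set (E d) := {y | ‖y - b‖ < 1 ∧ 1 < ‖y - a‖}

/-- row Start: the arc around the pole of the lune. -/
def SStart : Prop :=
  ∀ (d : ℕ) (a b : E d), 3 ≤ d → a ≠ b → ‖a - b‖ ≤ 1 / 10 → Arcs (Lune a b) (d - 1)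

/-- the vectors orthogonal to a subspace. -/
def perp {n : ℕ} (L : Submodule ℝ (Ix n → ℝ)) : Submodule ℝ (Ix n → ℝ) where
  carrier := {w | ∀ v ∈ L, lz w v = 0}
  add_mem' := fun {a b} ha hb v hv =>
    (add_dotProduct a b _).trans ((congrArg₂ _ (ha v hv) (hb v hv)).trans (add_zero 0))
  zero_mem' := fun _ _ => zero_dotProduct _
  smul_mem' := fun c a ha v hv =>
    (smul_dotProduct c a _).trans ((congrArg _ (ha v hv)).trans (smul_zero c))

/-- `W` is orthogonal to about `k` orthogonal positive vectors. -/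
def Su {n : ℕ} (k : ℕ) (W : Submodule ℝ (Ix n → ℝ)) : Prop :=
  ∃ (N : ℕ) (u : Fin N → Ix n → ℝ), (∀ i, 0 < lz (u i) (u i)) ∧
    (∀ i j, i ≠ j → lz (u i) (u j) = 0) ∧ (∀ w ∈ W, ∀ i, lz w (u i) = 0) ∧
    (k ≤ N ∨ (k ≤ N + 1 ∧ ∀ w ∈ W, 0 ≤ lz w w))

/-- row Alg: one step of the count, and the end of the count. -/
def SAlg : Prop :=
  (∀ (n k : ℕ) (W : Submodule ℝ (Ix n → ℝ)) (q q' : Ix n → ℝ), Su k W → q ∈ W → q' ∈ W →
    0 < lz q q → 0 < lz q' q' → ¬ Eqv W q' q → Su (k + 2) (nxt W q q')) ∧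
  ∀ (n k : ℕ) (W : Submodule ℝ (Ix n → ℝ)) (w : Ix n → ℝ), Su k W → w ∈ W → 0 < lz w w →
    k ≤ n + 1

/-- row Ini: the start of the count. -/
def SIni : Prop :=
  ∀ (n k : ℕ) (L : Submodule ℝ (Ix n → ℝ)), k ≤ finrank ℝ L → Su k (perp L)

/-- row Tri: a lune whose labels are orthogonal to a subspace of dimension `d`. -/
def STri : Prop :=
  ∀ (d n : ℕ) (O : (Ix n → ℝ) → Set (E d)), 1 ≤ d → Fam O →
    ∃ (a b : E d) (L : Submodule ℝ (Ix n → ℝ)), a ≠ b ∧ ‖a - b‖ ≤ 1 / 10 ∧ d ≤ finrank ℝ L ∧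
      Lab O (Lune a b) (perp L)

/-- the topological theorem in the larger range. -/
def STT3 : Prop :=
  ∀ (d n : ℕ) (O : (Ix n → ℝ) → Set (E d)), 3 ≤ d → n + 4 ≤ 3 * d → ¬ Fam O

theorem isOpen_lune {d : ℕ} (a b : E d) : IsOpen (Lune a b) := by
  have c1 : Continuous fun y : E d => ‖y - b‖ := by fun_prop
  have c2 : Continuous fun y : E d => ‖y - a‖ := by fun_prop
  exact (isOpen_lt c1 continuous_const).inter (isOpen_lt continuous_const c2)

theorem sTT3_of (h0 : STri) (h1 : SAlg) (h2 : SIni) (h3 : STArc) (h4 : STStart) (h5 : STCap)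
    (h6 : STStep) (h7 : SStart) : STT3 := by
  intro d n O hd hn hO
  have step : ∀ (k m : ℕ) (B : Set (E d)) (W : Submodule ℝ (Ix n → ℝ)), IsOpen B → Lab O B W →
      Su k W → Arcs B m → ∃ (B' : Set (E d)) (W' : Submodule ℝ (Ix n → ℝ)), IsOpen B' ∧
        Lab O B' W' ∧ Su (k + 2) W' ∧ Inv B' m := by
    intro k m B W hB hL hS hA
    obtain ⟨G, g1, g2, g3, g4, g5⟩ := h5 d m B hB hA
    obtain ⟨q, q', ζ, e, B', a1, a2, a3, a4, a5, a6, a7, a8, a9, a10⟩ :=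
      h6 d n O B G W hO hB hL g1 g2 g3 g4
    exact ⟨B', _, a8, a9, h1.1 n k W q q' hS a1 a2 a3 a4 a5, g5 ζ a6 e B' a7 a10⟩
  have main : ∀ j : ℕ, j + 2 ≤ d → ∃ (B : Set (E d)) (W : Submodule ℝ (Ix n → ℝ)), IsOpen B ∧
      Lab O B W ∧ Su (d + 2 * j + 2) W ∧ Inv B (d - 1 - j) := by
    intro j
    induction j with
    | zero =>
      intro _
      obtain ⟨a, b, L, a1, a2, a3, a4⟩ := h0 d n O (by omega) hO
      exact step d (d - 1) _ _ (isOpen_lune a b) a4 (h2 n d L a3) (h7 d a b hd a1 a2)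
    | succ j ih =>
      intro hj
      obtain ⟨B, W, b1, b2, b3, b4⟩ := ih (by omega)
      have e1 : d - 1 - j = d - 1 - (j + 1) + 1 := by omega
      rw [e1] at b4
      exact step (d + 2 * j + 2) _ B W b1 b2 b3 (h3 d _ B (by omega) b4)
  obtain ⟨B, W, b1, b2, b3, b4⟩ := main (d - 2) (by omega)
  have e1 : d - 1 - (d - 2) = 1 := by omega
  rw [e1] at b4
  obtain ⟨x, hxB, hx⟩ := hO.dense.inter_open_nonempty B b1 (h4.2 d B b4)
  obtain ⟨w, hw⟩ := mem_iUnion.1 hx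
  have := h1.2 n _ W w b3 (b2 w x hw hxB) (hO.pos w ⟨x, hw⟩)
  omega

end Pool.Agent.MP_66cee2_co.TR
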